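import Mathlib
import Pool.Agent.W223.AC.MasterK
import Pool.Agent.W223.AC.Split
import Pool.Agent.W976.AC.EX
import Pool.Agent.W460.AC.NORM
import Pool.Agent.W597.AC.LOC
import Pool.Agent.W193.AC.FINQ
import Pool.Agent.W398.AC.DIM
import Pool.Agent.W131.AC.GROW
import Pool.Agent.W989.AC.MULT
import Pool.Agent.W410.AC.HTG
import Pool.Agent.W756.AC.LOCP
import Pool.Agent.W223.AC.SUMP

/-!
# Vojta's conjecture for stacky curves, integral points above the elements of a number field

Let `X` be a smooth projective curve over a number field with finitely many points (or reduced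
divisors) `Q_1, …, Q_k`, and let `𝒳` be the root stack over `X` of order `e_l` at `Q_l`. Let
`t : X → ℙ¹` be a finite map of degree `N` over `ℚ` which is unramified outside the fibres over
three rational points `a_0, a_1, a_2` and maps the `Q_l` to the `a_j` (such a map exists by Belyi's
theorem; we may suppose that `a_j ≠ ∞`, and that every point over the `a_j` is in one of the `Q_l`,
with `e_l = 1` if it is not stacky). Let `A` be the ring of functions on `X` with poles only
over `∞`, let `z_{l 0} = t - a_{j(l)}, z_{l 1}, …` be generators of the ideal `I_l` of `Q_l`. Then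
for a set `J` of indices and the divisor `𝒟_J` of the stacky points over `Q_l`, `l ∈ J`,
`deg (K_𝒳 + 𝒟_J) / N = 1 - ∑_{l ∉ J} dim (A / I_l) / (e_l N)`.

The points `P` of `X` (not over `∞`) over a number field `L` are the homomorphisms `φ : A → L`; such
a point outside the `Q_l` is an integral point of `𝒳` over the `S`-integers of `L` if for every
prime `v` of `L` outside `S` the intersection number of `P` and `Q_l` at `v` is divisible by `e_l`
for all `l`.

Let `K` be a number field of degree `d` and `2 < κ < 3`. We prove the inequality with discriminant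
term for the integral points `P` of `𝒳` over ALL number fields `L ⊇ K` with `t(P) ∈ K` at the same
time, outside a set of values `x = t(P)` with `O(B ^ (d min(4 (3 - κ) / 7, 20 / 37) + δ))` elements
of height at most `B` (there are about `B ^ (2 d)` elements of `K` of height at most `B`); this set
is the same for all orders `e_l`, all `L` and all `J`.
-/

set_option autoImplicit false

namespace Pool.Agent.Results.MP_a41896_nt.StackyCurves

open Polynomial IsDedekindDomain NumberField

/-- The absolute logarithmic Weil height `h(x)`. -/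
noncomputable def height {K : Type} [Field K] [NumberField K] (x : K) : ℝ :=
  (1 / (Module.finrank ℚ K : ℝ)) *
    ((∑ w : InfinitePlace K, (w.mult : ℝ) * Real.log (max 1 (w x))) +
      ∑ᶠ v : HeightOneSpectrum (RingOfIntegers K), Real.log (max 1 (FinitePlace.mk v x)))

/-- the function `t` -/
noncomputable def coord (A : Type) [CommRing A] [Algebra ℚ[X] A] : A := algebraMap ℚ[X] A X

/-- `P = φ` reduces to a point of `Q = {z_0 = z_1 = ⋯ = 0}` at `v`: `|t(P)|_v ≤ 1` and
`|z_i(P)|_v < 1` for all `i`. -/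
def Meets {A : Type} [CommRing A] [Algebra ℚ[X] A] {s : ℕ} (z : Fin (s + 1) → A)
    (L : Type) [Field L] [NumberField L] (φ : A →+* L) (v : HeightOneSpectrum (𝓞 L)) :
    Prop :=
  v.valuation L (φ (coord A)) ≤ 1 ∧ ∀ i, v.valuation L (φ (z i)) < 1

/-- `P = φ` is an integral point over the `S`-integers of `L` of the curve with stacky points of
order `e_l` at `Q_l = {z_{l 0} = z_{l 1} = ⋯ = 0}`: for every prime `v` of `L` which contains no
prime of `S` and every `l` such that `P` reduces to a point of `Q_l` at `v`, the intersection number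
of `P` and `Q_l` at `v`, that is the number `m` with `max_i |z_{l i}(P)|_v = exp(- m)` (normalised
valuation), is a multiple of `e_l`. -/
def IsIntegralPoint {A : Type} [CommRing A] [Algebra ℚ[X] A] {k : ℕ} (S : Finset ℕ)
    (s : Fin k → ℕ) (z : ∀ l, Fin (s l + 1) → A) (e : Fin k → ℕ)
    (L : Type) [Field L] [NumberField L] (φ : A →+* L) : Prop :=
  ∀ v : HeightOneSpectrum (𝓞 L), (∀ p ∈ S, (p : 𝓞 L) ∉ v.asIdeal) → ∀ l, Meets (z l) L φ v →
    ∃ m : ℕ, e l ∣ m ∧ (∀ i, v.valuation L (φ (z l i)) ≤ WithZero.exp (-(m : ℤ))) ∧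
      ∃ i, v.valuation L (φ (z l i)) = WithZero.exp (-(m : ℤ))

open Classical in
/-- The truncated counting function `N^{(1)}(𝒟_J, P) / [L : ℚ]`: the sum of
`log N(v) / [L : ℚ]` over the primes `v` of `L`, not above primes of `S`, at which `P` reduces to a
point of `Q_l` for some `l ∈ J`. -/
noncomputable def truncated {A : Type} [CommRing A] [Algebra ℚ[X] A] {k : ℕ} (S : Finset ℕ)
    (s : Fin k → ℕ) (z : ∀ l, Fin (s l + 1) → A) (J : Finset (Fin k))
    (L : Type) [Field L] [NumberField L] (φ : A →+* L) : ℝ :=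
  (∑ᶠ v : HeightOneSpectrum (𝓞 L),
      if (∀ p ∈ S, (p : 𝓞 L) ∉ v.asIdeal) ∧ ∃ l ∈ J, Meets (z l) L φ v
      then Real.log (Ideal.absNorm v.asIdeal) else 0) / Module.finrank ℚ L

/-- The logarithmic discriminant `log |disc L| / [L : ℚ]`. -/
noncomputable def logDisc (L : Type) [Field L] [NumberField L] : ℝ :=
  Real.log |(NumberField.discr L : ℝ)| / Module.finrank ℚ L

/-- `3 - ∑_{l ∉ J} dim (A / I_l) / (e_l N)` for `I_l = (z_{l 0}, z_{l 1}, …)` and `N` the rank of
`A` over `ℚ[t]`: the number `2 + deg (K_𝒳 + 𝒟_J) / N`. -/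
noncomputable def degree {A : Type} [CommRing A] [Algebra ℚ A] [Algebra ℚ[X] A] {k : ℕ}
    (s : Fin k → ℕ) (z : ∀ l, Fin (s l + 1) → A) (e : Fin k → ℕ) (J : Finset (Fin k)) : ℝ :=
  3 - ∑ l ∈ Jᶜ, (Module.finrank ℚ (A ⧸ Ideal.span (Set.range (z l))) : ℝ) /
    (e l * Module.finrank ℚ[X] A)

/-- The elements `x` of `K` of height `exp h(x) ≤ B` such that for some number field `L` which
contains `K`, some orders `e_l` and some point `P = φ` over `L` with `t(P) = x`, `P` is an
`S`-integral point over `L` of the curve with stacky points of order `e_l` at `Q_l` and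
`(degree - κ) h(x) ≤ N^{(1)}(𝒟_J, P) / [L : ℚ] + d(L) + C₀` fails for some `J`. -/
def exceptional (K : Type) [Field K] [NumberField K] {A : Type} [CommRing A] [Algebra ℚ A]
    [Algebra ℚ[X] A] {k : ℕ} (S : Finset ℕ) (s : Fin k → ℕ) (z : ∀ l, Fin (s l + 1) → A)
    (κ C₀ B : ℝ) : Set K :=
  {x | Real.exp (height x) ≤ B ∧ ∃ (L : Type) (_ : Field L) (_ : NumberField L) (_ : Algebra K L)
    (φ : A →+* L) (e : Fin k → ℕ) (J : Finset (Fin k)), φ (coord A) = algebraMap K L x ∧
      (∀ l, 1 ≤ e l) ∧ IsIntegralPoint S s z e L φ ∧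
      truncated S s z J L φ + logDisc L + C₀ < (degree s z e J - κ) * height x}

open Pool.Agent.W223.CV in
/-- the pieces in `J` and the others -/
lemma cc_pieces {L : Type} [Field L] [NumberField L] {k : ℕ} (S : Finset ℕ) (J : Finset (Fin k))
    (Q : Fin k → HeightOneSpectrum (𝓞 L) → Prop) (hQ : ∀ l, {v | Q l v}.Finite) :
    cc S (fun v => ∃ l ∈ (Finset.univ : Finset (Fin k)), Q l v) ≤
      cc S (fun v => ∃ l ∈ J, Q l v) + ∑ l ∈ Jᶜ, cc S (Q l) := by
  classical
  have hfin : ∀ I : Finset (Fin k), {v | ∃ l ∈ I, Q l v}.Finite := by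
    intro I
    refine (Set.finite_iUnion fun l => hQ l).subset ?_
    rintro v ⟨l, -, hv⟩
    exact Set.mem_iUnion.mpr ⟨l, hv⟩
  have h1 := cc_mono (S := S) (le_refl S) (A := fun v => (∃ l ∈ J, Q l v) ∨ ∃ l ∈ Jᶜ, Q l v)
    (A' := fun v => ∃ l ∈ (Finset.univ : Finset (Fin k)), Q l v) ((hfin J).union (hfin Jᶜ)) (by
      rintro v - ⟨l, -, hl⟩
      by_cases h : l ∈ J
      · exact Or.inl ⟨l, h, hl⟩
      · exact Or.inr ⟨l, Finset.mem_compl.mpr h, hl⟩)
  have h2 := cc_or S (hfin J) (hfin Jᶜ)
  have h3 := cc_exists S Jᶜ Q hQ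
  linarith

/-- **Vojta's inequality for integral points of stacky curves above the elements of a number
field.** Let `A` be a Dedekind domain, finite over `ℚ[t]` and containing it (the ring of functions
of a smooth affine curve which is finite over the `t`-line), of rank `N`, let `a_0, a_1, a_2` be
distinct rational numbers, let `Q_1, …, Q_k` be closed subschemes of the curve, defined by
`z_{l 0} = t - a_{j(l)}, z_{l 1}, …`, which contain all points over the `a_j`. Let `K` be a number
field of degree `d`, `S` a finite set of primes and let `2 < κ < 3`, `C₀` and `δ > 0` be real. Then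
for all `B ≥ 1`, for all but `C * B ^ (d min(4 (3 - κ) / 7, 20 / 37) + δ)` elements `x` of `K` of
height at most `B`, all number fields `L` containing `K`, all points `P` of the curve over `L` with
`t(P) = x` and all orders `e_l ≥ 1` for which `P` is an `S`-integral point over `L` of the curve
with stacky points of order `e_l` at `Q_l`, the inequality
`(3 - κ - ∑_{l ∉ J} dim (A / I_l) / (e_l N)) h(x) ≤ N^{(1)}(𝒟_J, P) / [L : ℚ] + d(L) + C₀` holds
for all `J`. -/
theorem result :
    ∀ (A : Type) [CommRing A] [IsDedekindDomain A] [Algebra ℚ A] [Algebra ℚ[X] A]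
      [IsScalarTower ℚ ℚ[X] A] [Module.Finite ℚ[X] A] [FaithfulSMul ℚ[X] A]
      (a : Fin 3 → ℚ), Function.Injective a →
    ∀ (k : ℕ) (j : Fin k → Fin 3) (s : Fin k → ℕ) (z : ∀ l, Fin (s l + 1) → A),
    (∀ l, z l 0 = coord A - algebraMap ℚ[X] A (C (a (j l)))) →
    (∀ i, ∏ l with j l = i, Ideal.span (Set.range (z l)) ≤
      (Ideal.span {coord A - algebraMap ℚ[X] A (C (a i))}).radical) →
    ∀ (K : Type) [Field K] [NumberField K] (S : Finset ℕ), (∀ p ∈ S, p.Prime) →
    ∀ κ C₀ δ : ℝ, 2 < κ → κ < 3 → 0 < δ →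
    ∃ C : ℝ, ∀ B : ℝ, 1 ≤ B → (exceptional K S s z κ C₀ B).Finite ∧
      ((exceptional K S s z κ C₀ B).ncard : ℝ) ≤
        C * B ^ ((Module.finrank ℚ K : ℝ) * min (4 * (3 - κ) / 7) (20 / 37) + δ) := by
  classical
  intro A _ _ _ _ _ _ _ a ha k j s z hz0 hcov K _ _ S hS κ C₀ δ hκ hκ3 hδ
  obtain ⟨ε, hε, hmas⟩ := Pool.Agent.W223.AC.MK.master K a ha κ δ hκ hκ3 hδ
  have hk0 : (0 : ℝ) < (k : ℝ) + 1 := by positivity
  obtain ⟨M, Ck, G, hM, hCk, hG, hkey⟩ := Pool.Agent.W223.AC.keyG
    (Pool.Agent.W223.AC.nbp (Pool.Agent.W976.AC.EX.t Pool.Agent.W398.AC.DIM.t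
      Pool.Agent.W193.AC.FINQ.t Pool.Agent.W989.AC.MULT.t) Pool.Agent.W756.AC.t
      (Pool.Agent.W410.AC.t Pool.Agent.W131.AC.t) Pool.Agent.W223.AC.SUMP.t
      Pool.Agent.W460.AC.t)
    Pool.Agent.W989.AC.MULT.t Pool.Agent.W597.AC.t A a j s z hz0 hcov
    (ε / (k + 1)) (by positivity)
  have hSp : ∀ p ∈ S ∪ M.primeFactors, p.Prime := by
    intro p hp
    rcases Finset.mem_union.mp hp with h | h
    · exact hS p h
    · exact Nat.prime_of_mem_primeFactors h
  obtain ⟨C, hB⟩ := hmas (S ∪ M.primeFactors) hSp (C₀ - k * Ck) G hG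
  refine ⟨C, fun B hB1 => ?_⟩
  obtain ⟨h1, h2⟩ := hB B hB1
  have hsub : exceptional K S s z κ C₀ B ⊆
      Pool.Agent.W223.AC.MK.exc K (S ∪ M.primeFactors) a (κ - ε) (C₀ - k * Ck) B G := by
    rintro x ⟨hh, L, hLF, hLN, hLA, φ, e, J, hφ, he, hint, hv⟩
    refine ⟨hh, ?_⟩
    by_cases hGx : aeval x G = 0
    · exact Or.inl hGx
    by_cases hxa : ∃ j, x = (a j : K)
    · exact Or.inr (Or.inl hxa)
    push Not at hxa
    refine Or.inr (Or.inr ⟨L, hLF, hLN, hLA, ?_⟩)
    have hne : ∀ k, φ (coord A) ≠ (a k : L) := by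
      intro k h
      rw [hφ] at h
      apply hxa k
      apply FaithfulSMul.algebraMap_injective K L
      rw [h, map_ratCast]
    have hGL : aeval (φ (coord A)) G ≠ 0 := by
      rw [hφ, aeval_algebraMap_apply]
      intro h
      rw [map_eq_zero] at h
      exact hGx h
    obtain ⟨hk1, hk2⟩ := hkey L φ hGL hne
    have hk1 := hk1 S
    have hLpos : (0 : ℝ) < Module.finrank ℚ L := by exact_mod_cast Module.finrank_pos
    -- the height over `L`
    have hht : Real.log (Height.mulHeight₁ (φ (coord A))) = Module.finrank ℚ L * height x := by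
      have h3 : Real.log (Height.mulHeight₁ (algebraMap K L x)) =
          Module.finrank K L * Real.log (Height.mulHeight₁ x) :=
        Pool.Agent.W223.AC.MK.log_height_ext L x
      have h4 : Real.log (Height.mulHeight₁ x) = Module.finrank ℚ K * height x :=
        Pool.Agent.W223.AC.MK.height_eq x
      rw [hφ, h3, h4, ← mul_assoc, mul_comm (Module.finrank K L : ℝ)]
      congr 1
      exact_mod_cast Module.finrank_mul_finrank ℚ K L
    have hzne : ∀ l, φ (z l 0) ≠ 0 := by
      intro l
      rw [hz0 l, map_sub]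
      have : φ (algebraMap ℚ[X] A (Polynomial.C (a (j l)))) = (a (j l) : L) :=
        eq_ratCast (φ.comp ((algebraMap ℚ[X] A).comp Polynomial.C)) (a (j l))
      rw [this]
      exact sub_ne_zero.mpr (hne (j l))
    have hfin : ∀ l, {v : HeightOneSpectrum (𝓞 L) | Pool.Agent.W223.AC.NearP (z l) φ v}.Finite :=
      fun l => Pool.Agent.W223.AC.near_finite (z l) φ (hzne l)
    have h0h : 0 ≤ height x := by
      have h3 : 0 ≤ Real.log (Height.mulHeight₁ (φ (coord A))) :=
        Real.log_nonneg (Height.one_le_mulHeight₁ _)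
      rw [hht] at h3
      exact nonneg_of_mul_nonneg_right h3 hLpos
    -- the pieces outside `J`
    have h5 : ∀ l, Pool.Agent.W223.CV.cc S (fun v : HeightOneSpectrum (𝓞 L) =>
          Pool.Agent.W223.AC.NearP (z l) φ v) ≤
        ((Module.finrank ℚ (A ⧸ Ideal.span (Set.range (z l))) : ℝ) /
            (e l * Module.finrank ℚ[X] A) + ε / (k + 1)) * height x * Module.finrank ℚ L +
          Ck * Module.finrank ℚ L := by
      intro l
      obtain ⟨h6, h7⟩ := hk2 l
      have he1 : (1 : ℝ) ≤ e l := by exact_mod_cast he l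
      have h8 := Pool.Agent.W223.AC.split_order (z l) φ S (hzne l) h6 (e l) (by
        intro v hvS hnear i
        obtain ⟨m, hm, hle, i', hi'⟩ := hint v hvS l hnear
        have hm0 : m ≠ 0 := by
          rintro rfl
          have h9 := hnear.2 i'
          rw [hi'] at h9
          simp at h9
        obtain ⟨c', rfl⟩ := hm
        refine (hle i).trans ?_
        rw [WithZero.exp_le_exp, neg_le_neg_iff]
        have : 1 ≤ c' := by
          rcases Nat.eq_zero_or_pos c' with h | h
          · rw [h, mul_zero] at hm0; exact absurd rfl hm0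
          · exact h
        exact_mod_cast Nat.le_mul_of_pos_right _ this)
      have h9 : Real.log (Height.mulHeight₁ (φ (Pool.Agent.W223.AC.tt A))) =
        Module.finrank ℚ L * height x := hht
      rw [h9] at h7
      have h10 : 0 ≤ ∑ w : InfinitePlace L, (w.mult : ℝ) *
          Pool.Agent.W223.AC.lamI (z l) φ w :=
        Finset.sum_nonneg fun w _ => mul_nonneg (Nat.cast_nonneg _)
          (Pool.Agent.W223.AC.lamI_nonneg _ _ _)
      have h11 : (e l : ℝ) * Pool.Agent.W223.CV.cc S (fun v : HeightOneSpectrum (𝓞 L) =>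
          Pool.Agent.W223.AC.NearP (z l) φ v) ≤
          ((Module.finrank ℚ (A ⧸ Ideal.span (Set.range (z l))) : ℝ) /
            Module.finrank ℚ[X] A + ε / (k + 1)) * (Module.finrank ℚ L * height x) +
          Module.finrank ℚ L * Ck := by linarith
      have he0 : (0 : ℝ) < e l := by linarith
      refine le_of_mul_le_mul_left (h11.trans ?_) he0
      have h12 : (e l : ℝ) * (((Module.finrank ℚ (A ⧸ Ideal.span (Set.range (z l))) : ℝ) /
            (e l * Module.finrank ℚ[X] A) + ε / (k + 1)) * height x * Module.finrank ℚ L +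
          Ck * Module.finrank ℚ L) =
          ((Module.finrank ℚ (A ⧸ Ideal.span (Set.range (z l))) : ℝ) /
            Module.finrank ℚ[X] A) * (Module.finrank ℚ L * height x) +
          e l * (ε / (k + 1) * (Module.finrank ℚ L * height x) +
            Module.finrank ℚ L * Ck) := by
        rw [mul_comm (e l : ℝ) (Module.finrank ℚ[X] A : ℝ), ← div_div]
        field_simp
        ring
      rw [h12]
      have h13 : 0 ≤ ε / (k + 1) * (Module.finrank ℚ L * height x) +
            Module.finrank ℚ L * Ck := by positivity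
      nlinarith
    have h6 := Finset.sum_le_sum fun l (_ : l ∈ Jᶜ) => h5 l
    have h7 : ∑ l ∈ Jᶜ, (((Module.finrank ℚ (A ⧸ Ideal.span (Set.range (z l))) : ℝ) /
            (e l * Module.finrank ℚ[X] A) + ε / (k + 1)) * height x * Module.finrank ℚ L +
          Ck * Module.finrank ℚ L) ≤
        (3 - degree s z e J + ε) * height x * Module.finrank ℚ L +
          k * Ck * Module.finrank ℚ L := by
      rw [Finset.sum_add_distrib, ← Finset.sum_mul, ← Finset.sum_mul, Finset.sum_add_distrib,
        Finset.sum_const, Finset.sum_const, nsmul_eq_mul, nsmul_eq_mul]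
      have hJ : ((Jᶜ.card : ℕ) : ℝ) ≤ k := by
        have := Finset.card_le_univ Jᶜ
        rw [Fintype.card_fin] at this
        exact_mod_cast this
      have h8 : ((Jᶜ.card : ℕ) : ℝ) * (ε / (k + 1)) ≤ ε := by
        rw [mul_div_assoc', div_le_iff₀ hk0]
        nlinarith
      unfold degree
      have h9 : (∑ l ∈ Jᶜ, (Module.finrank ℚ (A ⧸ Ideal.span (Set.range (z l))) : ℝ) /
          (e l * Module.finrank ℚ[X] A) + ((Jᶜ.card : ℕ) : ℝ) * (ε / (k + 1))) * height x *
            Module.finrank ℚ L ≤ (3 - (3 - ∑ l ∈ Jᶜ,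
              (Module.finrank ℚ (A ⧸ Ideal.span (Set.range (z l))) : ℝ) /
              (e l * Module.finrank ℚ[X] A)) + ε) * height x * Module.finrank ℚ L := by
        refine mul_le_mul_of_nonneg_right (mul_le_mul_of_nonneg_right ?_ h0h) hLpos.le
        linarith
      have h10 : ((Jᶜ.card : ℕ) : ℝ) * (Ck * Module.finrank ℚ L) ≤
          k * Ck * Module.finrank ℚ L := by
        rw [mul_assoc]
        exact mul_le_mul_of_nonneg_right hJ (by positivity)
      exact add_le_add h9 h10
    have e6 : truncated S s z J L φ = Pool.Agent.W223.CV.cc S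
        (fun v : HeightOneSpectrum (𝓞 L) => ∃ l ∈ J, Pool.Agent.W223.AC.NearP (z l) φ v) /
        Module.finrank ℚ L := by
      unfold truncated
      refine congrArg (fun t : ℝ => t / Module.finrank ℚ L) ?_
      unfold Pool.Agent.W223.CV.cc
      refine finsum_congr fun v => ?_
      by_cases h : (∀ p ∈ S, (p : 𝓞 L) ∉ v.asIdeal) ∧
          ∃ l ∈ J, Pool.Agent.W223.AC.NearP (z l) φ v
      · rw [Pool.Agent.W223.CV.ct_pos h]
        exact if_pos h
      · rw [Pool.Agent.W223.CV.ct_neg h]
        exact if_neg h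
    have e7 : logDisc L = Real.log |(discr L : ℝ)| / Module.finrank ℚ L := rfl
    rw [e7, e6] at hv
    have h8 := cc_pieces S J (fun l (v : HeightOneSpectrum (𝓞 L)) =>
      Pool.Agent.W223.AC.NearP (z l) φ v) hfin
    have h9 : Pool.Agent.W223.VD.cnt (S ∪ M.primeFactors)
        (fun k => Pool.Agent.W223.AC.pt (a k)) (φ (coord A)) / Module.finrank ℚ L ≤
        Pool.Agent.W223.CV.cc S
          (fun v : HeightOneSpectrum (𝓞 L) => ∃ l ∈ J, Pool.Agent.W223.AC.NearP (z l) φ v) /
          Module.finrank ℚ L + (3 - degree s z e J + ε) * height x + k * Ck := by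
      rw [div_le_iff₀ hLpos, add_mul, add_mul, div_mul_cancel₀ _ hLpos.ne']
      have h10 : Pool.Agent.W223.VD.cnt (S ∪ M.primeFactors)
        (fun k => Pool.Agent.W223.AC.pt (a k)) (φ (coord A)) ≤ _ := hk1.trans h8
      linarith
    rw [hφ] at h9
    have h11 : ((3 : ℝ) - (κ - ε)) * height x =
        (degree s z e J - κ) * height x + (3 - degree s z e J + ε) * height x := by ring
    have h12 : Pool.Agent.Results.MP_f5a5f7_nt.FewExceptions.height x = height x := rfl
    rw [h12, h11]
    linarith
  refine ⟨h1.subset hsub, ?_⟩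
  refine le_trans ?_ h2
  exact_mod_cast Set.ncard_le_ncard hsub h1

end Pool.Agent.Results.MP_a41896_nt.StackyCurves
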