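import Mathlib
import Pool.Agent.W223.VD.Points
import Pool.Agent.W223.CV.CoreS
import Pool.Agent.W469.CV.REL
import Pool.Agent.W469.CV.MH
import Pool.Agent.W125.CV.HT

/-!
# Vojta's conjecture for stacky projective lines, integral points over all number fields

`P_1, …, P_q` are distinct rational points of the projective line. Let `𝒳` be the root stack of
order `n_j` at `P_j` for all `j` (a smooth proper Deligne-Mumford stack over the integers outside
the primes dividing some `n_j` or meeting two of the `P_j`, with coarse space the line), and let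
`𝒟_J` be the sum of the stacky points above the `P_j`, `j ∈ J`. Then `K_𝒳 + 𝒟_J` is the pull back
of `K + ∑_{j ∈ J} P_j + ∑_{j ∉ J} (1 - 1 / n_j) P_j`. An integral point of `𝒳` over the `S`-integers
of a number field `L` which does not meet the `P_j` generically is a point `x` of the line over `L`
such that for every prime `v` of `L` outside `S` the local intersection number of `x` and `P_j` at
`v` is divisible by `n_j` for all `j`.

We prove the inequality with discriminant term (as in the version of the conjecture for points of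
bounded degree) for the integral points over ALL number fields `L` at the same time, outside a
sparse set of points `x` of the line; this set is also the same for all orders `n_j`, all `L` and
all `J`.
-/

set_option autoImplicit false

namespace Pool.Agent.Results.MP_a41896_nt.StackyLines

open Polynomial IntermediateField IsDedekindDomain NumberField

/-- The absolute logarithmic height `(log M(f)) / deg f` of the roots of an irreducible integral
polynomial `f` (`M` is the Mahler measure). -/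
noncomputable def height (f : ℤ[X]) : ℝ :=
  Real.log (f.map (Int.castRingHom ℂ)).mahlerMeasure / f.natDegree

/-- `x` is an integral point over the `S`-integers of `L` of the line with stacky points of order
`n_j` at `P_j = (u_j : w_j)`: for every prime `v` of `L` which contains no prime of `S` and every
`j` the intersection number of `x` and `P_j` at `v`, that is the number `t` with
`|u_j - x w_j|_v = max(|x|_v, 1) exp(- t)` (normalised valuation), is a multiple of `n_j`. -/
def IsIntegralPoint {q : ℕ} (S : Finset ℕ) (P : Fin q → ℤ × ℤ) (n : Fin q → ℕ)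
    (L : IntermediateField ℚ ℂ) [NumberField L] (x : L) : Prop :=
  ∀ v : HeightOneSpectrum (𝓞 L), (∀ p ∈ S, (p : 𝓞 L) ∉ v.asIdeal) → ∀ j, ∃ t : ℕ,
    v.valuation L (((P j).1 : L) - x * ((P j).2 : L)) =
      max (v.valuation L x) 1 * WithZero.exp (-((n j * t : ℕ) : ℤ))

open Classical in
/-- The truncated counting function `N^{(1)}(𝒟_J, x) / [L : ℚ]`: the sum of
`log N(v) / [L : ℚ]` over the primes `v` of `L`, not above primes of `S`, at which
`|u_j - x w_j|_v < max(|x|_v, 1)` for some `j ∈ J`. -/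
noncomputable def truncated {q : ℕ} (S : Finset ℕ) (P : Fin q → ℤ × ℤ) (J : Finset (Fin q))
    (L : IntermediateField ℚ ℂ) [NumberField L] (x : L) : ℝ :=
  (∑ᶠ v : HeightOneSpectrum (𝓞 L),
      if (∀ p ∈ S, (p : 𝓞 L) ∉ v.asIdeal) ∧
        ∃ j ∈ J, v.valuation L (((P j).1 : L) - x * ((P j).2 : L)) < max (v.valuation L x) 1
      then Real.log (Ideal.absNorm v.asIdeal) else 0) / Module.finrank ℚ L

/-- The logarithmic discriminant `log |disc L| / [L : ℚ]`. -/
noncomputable def logDisc (L : IntermediateField ℚ ℂ) [NumberField L] : ℝ :=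
  Real.log |(NumberField.discr L : ℝ)| / Module.finrank ℚ L

/-- `|J| + ∑_{j ∉ J} (1 - 1 / n_j)`: the degree of `K_𝒳 + 𝒟_J` plus `2`. -/
noncomputable def degree {q : ℕ} (n : Fin q → ℕ) (J : Finset (Fin q)) : ℝ :=
  ∑ _j ∈ J, (1 : ℝ) + ∑ j ∈ Jᶜ, (1 - 1 / (n j : ℝ))

/-- The algebraic numbers `x` of degree `r` and height at most `log B` such that for some number
field `L` containing `x` and some orders `n_j`, `x` is an `S`-integral point over `L` of the line
with stacky points of order `n_j` at `P_j` and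
`(|J| + ∑_{j ∉ J} (1 - 1 / n_j) - κ) h(x) ≤ N^{(1)}(𝒟_J, x) / [L : ℚ] + d(L) + C₀` fails for
some `J`. -/
def exceptional {q : ℕ} (S : Finset ℕ) (P : Fin q → ℤ × ℤ) (r : ℕ) (κ C₀ B : ℝ) : Set ℂ :=
  {x | ∃ f : ℤ[X], Irreducible f ∧ f.natDegree = r ∧ aeval x f = 0 ∧ height f ≤ Real.log B ∧
    ∃ (L : IntermediateField ℚ ℂ) (_ : NumberField L) (hx : x ∈ L) (n : Fin q → ℕ)
      (J : Finset (Fin q)), (∀ j, 1 ≤ n j) ∧ IsIntegralPoint S P n L ⟨x, hx⟩ ∧
      truncated S P J L ⟨x, hx⟩ + logDisc L + C₀ < (degree n J - κ) * height f}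

/-- The number of number fields of degree `r` and discriminant at most `Δ` is
`O(Δ ^ (alpha r c η))`: here `alpha r c η` is the smaller of
`(r - 1) (r + 2) / (4 ⌈r / 2⌉)` and `c r ^ η`. -/
noncomputable def alpha (r : ℕ) (c η : ℝ) : ℝ :=
  min (((r : ℝ) - 1) * (r + 2) / (4 * ((r + 1) / 2 : ℕ))) (c * (r : ℝ) ^ η)

/-- The exponent of the theorem: with `m = min q (r + 1)`, the smaller of `α (q - κ)` and
`((q α - 2) (r + 1 - m) + m α (q - κ)) / (q α + m - 2)`. -/
noncomputable def exponent (α : ℝ) (r q : ℕ) (κ : ℝ) : ℝ :=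
  min (α * (q - κ)) (((q * α - 2) * (r + 1 - (min q (r + 1) : ℕ)) +
    (min q (r + 1) : ℕ) * α * (q - κ)) / (q * α + (min q (r + 1) : ℕ) - 2))

open Pool.Agent.W223.CV in
lemma lin_ne_zero {r : ℕ} (hr : 2 ≤ r) {f : ℤ[X]} (hf : Irreducible f) (hd : f.natDegree = r)
    {L : Type} [Field L] [NumberField L] {x : L} (hx : aeval x f = 0) (P : ℤ × ℤ)
    (hP : IsCoprime P.1 P.2) : lin P x ≠ 0 :=
  Pool.Agent.W598.VD.TR.L_ne_zero x f P hx (Pool.Agent.W223.VD.value_ne_zero hr hf hd P hP)

/-- **The truncated Vojta inequality with discriminant term on stacky projective lines.**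
Let `η > 0`. There is `c ≥ 1` such that for all `r ≥ 2`, all `q ≥ 3` distinct rational points
`P_j = (u_j : w_j)` of the line, all finite sets `S` of primes and all real `κ ≤ q`, `C₀` and
`δ > 0` the following holds for all `B ≥ 1`: for all but
`C * B ^ (r * exponent (alpha r c η) r q κ + δ)` algebraic numbers `x` of degree `r` and height at
most `log B`, all number fields `L` containing `x` and all orders `n_j ≥ 1` for which `x` is an
`S`-integral point over `L` of the line with stacky points of order `n_j` at `P_j`, the inequality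
`(|J| + ∑_{j ∉ J} (1 - 1 / n_j) - κ) h(x) ≤ N^{(1)}(𝒟_J, x) / [L : ℚ] + d(L) + C₀` holds for
all `J`. -/
theorem result : ∀ η : ℝ, 0 < η → ∃ c : ℝ, 1 ≤ c ∧ ∀ (r q : ℕ), 2 ≤ r → 3 ≤ q →
    ∀ P : Fin q → ℤ × ℤ, (∀ j, IsCoprime (P j).1 (P j).2) →
    (∀ i j, i ≠ j → (P i).1 * (P j).2 ≠ (P j).1 * (P i).2) →
    ∀ S : Finset ℕ, (∀ p ∈ S, p.Prime) → ∀ κ C₀ δ : ℝ, κ ≤ q → 0 < δ →
    ∃ C : ℝ, ∀ B : ℝ, 1 ≤ B → (exceptional S P r κ C₀ B).Finite ∧
      ((exceptional S P r κ C₀ B).ncard : ℝ) ≤
        C * B ^ ((r : ℝ) * exponent (alpha r c η) r q κ + δ) := by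
  classical
  intro η hη
  obtain ⟨c, hc, hα⟩ := Pool.Agent.W223.VD.Points.result η hη
  refine ⟨c, hc, ?_⟩
  intro r q hr hq P hP hPP S hS κ C₀ δ hκ hδ
  have hPZ : ∀ j, P j ≠ 0 := by
    intro j h
    have h1 := hP j
    rw [h] at h1
    obtain ⟨a, b, hab⟩ := h1
    simp at hab
  set C₁ := C₀ - ∑ j, Real.log (|((P j).1 : ℝ)| + |((P j).2 : ℝ)|) with hC₁
  obtain ⟨C, hB⟩ := hα r q hr hq P hP hPP S hS κ C₁ δ hκ hδ
  refine ⟨C, fun B hB1 => ?_⟩
  obtain ⟨h1, h2⟩ := hB B hB1
  have hsub : exceptional S P r κ C₀ B ⊆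
      Pool.Agent.W223.VD.Points.exceptional S P r κ C₁ B := by
    rintro x ⟨f, hf, hd, hx, hh, L, hLN, hxL, n, J, hn, hint, hv⟩
    refine ⟨f, hf, hd, hx, hh, ?_⟩
    by_contra hcon
    rw [not_lt] at hcon
    obtain ⟨hK, hfr⟩ := Pool.Agent.W223.VD.field_data (by omega) hf hd hx
    have hle : ℚ⟮x⟯ ≤ L := IntermediateField.adjoin_simple_le_iff.mpr hxL
    let : Algebra ℚ⟮x⟯ L := (IntermediateField.inclusion hle).toRingHom.toAlgebra
    have hgen : algebraMap ℚ⟮x⟯ L (AdjoinSimple.gen ℚ x) = ⟨x, hxL⟩ := rfl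
    have hxf : aeval (AdjoinSimple.gen ℚ x) f = 0 := by
      have h9 : (aeval (AdjoinSimple.gen ℚ x) f : ℚ⟮x⟯).1 = 0 := by
        have := aeval_algebraMap_apply ℂ (AdjoinSimple.gen ℚ x) f
        have h10 : algebraMap ℚ⟮x⟯ ℂ (AdjoinSimple.gen ℚ x) = x := rfl
        rw [h10, hx] at this
        exact this.symm
      exact Subtype.ext h9
    have hlin : ∀ j, Pool.Agent.W223.CV.lin (P j) (AdjoinSimple.gen ℚ x) ≠ 0 :=
      fun j => lin_ne_zero hr hf hd hxf (P j) (hP j)
    have key := Pool.Agent.W223.CV.core' Pool.Agent.W469.CV.REL.t Pool.Agent.W125.CV.t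
      Pool.Agent.W469.CV.MH.t ℚ⟮x⟯ L S P
      (AdjoinSimple.gen ℚ x) f hf (by omega) hxf n hn hPZ hlin ?_ J κ C₁ ?_
    · have e1 : truncated S P J L ⟨x, hxL⟩ =
          Pool.Agent.W223.CV.cc S (fun v => ∃ j ∈ J, Pool.Agent.W223.CV.Near (P j)
            (algebraMap ℚ⟮x⟯ L (AdjoinSimple.gen ℚ x)) v) / Module.finrank ℚ L := by
        unfold truncated
        refine congrArg (fun t : ℝ => t / Module.finrank ℚ L) ?_
        unfold Pool.Agent.W223.CV.cc
        refine finsum_congr fun v => ?_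
        by_cases h : (∀ p ∈ S, (p : 𝓞 L) ∉ v.asIdeal) ∧ ∃ j ∈ J, Pool.Agent.W223.CV.Near (P j)
            (algebraMap ℚ⟮x⟯ L (AdjoinSimple.gen ℚ x)) v
        · rw [Pool.Agent.W223.CV.ct_pos h]
          exact if_pos h
        · rw [Pool.Agent.W223.CV.ct_neg h]
          exact if_neg h
      have e2 : logDisc L = Real.log |(discr L : ℝ)| / Module.finrank ℚ L := rfl
      have e3 : degree n J - κ = ∑ j ∈ J, (1 : ℝ) +
          ∑ j ∈ Jᶜ, (1 - 1 / (n j : ℝ)) - κ := rfl
      have e4 : height f = Real.log (Pool.Agent.H813R3.Voj.mahler f) / f.natDegree := rfl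
      rw [e1, e2, e3, e4] at hv
      rw [hC₁] at key
      linarith
    · intro v hv' j hn'
      obtain ⟨t, ht⟩ := hint v hv' j
      have ht2 : v.valuation L (Pool.Agent.W223.CV.lin (P j)
          (algebraMap ℚ⟮x⟯ L (AdjoinSimple.gen ℚ x))) =
          max (v.valuation L (algebraMap ℚ⟮x⟯ L (AdjoinSimple.gen ℚ x))) 1 *
            WithZero.exp (-((n j * t : ℕ) : ℤ)) := ht
      have hn2 : v.valuation L (Pool.Agent.W223.CV.lin (P j)
          (algebraMap ℚ⟮x⟯ L (AdjoinSimple.gen ℚ x))) <
          max (v.valuation L (algebraMap ℚ⟮x⟯ L (AdjoinSimple.gen ℚ x))) 1 := hn'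
      rw [ht2] at hn2 ⊢
      have ht0 : t ≠ 0 := by
        rintro rfl
        simp at hn2
      have hle2 : n j ≤ n j * t := Nat.le_mul_of_pos_right _ (Nat.pos_of_ne_zero ht0)
      refine mul_le_mul_right ?_ _
      rw [WithZero.exp_le_exp]
      omega
    · have e1 : Pool.Agent.W223.VD.Points.truncated S P x =
          Pool.Agent.W223.VD.cnt S P (AdjoinSimple.gen ℚ x) / Module.finrank ℚ ℚ⟮x⟯ := by
        unfold Pool.Agent.W223.VD.Points.truncated
        rw [dif_pos hK]
        rfl
      have e2 : Pool.Agent.W223.VD.Points.logDisc x =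
          Real.log |(discr ℚ⟮x⟯ : ℝ)| / Module.finrank ℚ ℚ⟮x⟯ := by
        unfold Pool.Agent.W223.VD.Points.logDisc
        rw [dif_pos hK]
      rw [e1, e2] at hcon
      exact hcon
  refine ⟨h1.subset hsub, ?_⟩
  have h3 : ((exceptional S P r κ C₀ B).ncard : ℝ) ≤
      ((Pool.Agent.W223.VD.Points.exceptional S P r κ C₁ B).ncard :
        ℝ) := by
    exact_mod_cast Set.ncard_le_ncard hsub h1
  exact h3.trans h2

end Pool.Agent.Results.MP_a41896_nt.StackyLines
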